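import Pool.Agent.W973.SRR.Defs2

/-!
# The scores exclude blocking pairs
-/

set_option autoImplicit false

namespace Pool.Agent.W886.SRR

open Pool.Agent.W973.SRR Pool.Agent.NPC

theorem nr_pr (i : ℕ) : nr (pr i) = i := by unfold nr pr; omega
theorem pr_nr (i : ℕ) : pr (nr i) = i := by unfold nr pr; omega
theorem pr_pr (i : ℕ) : pr (pr i) = nr i := by unfold nr pr; omega
theorem nr_nr (i : ℕ) : nr (nr i) = pr i := by unfold nr pr; omega
theorem nr_div (i : ℕ) : nr i / 3 = i / 3 := by unfold nr; omega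
theorem pr_div (i : ℕ) : pr i / 3 = i / 3 := by unfold pr; omega
theorem nr_ne (i : ℕ) : nr i % 3 ≠ i % 3 := by unfold nr; omega
theorem pr_ne (i : ℕ) : pr i % 3 ≠ i % 3 := by unfold pr; omega
theorem nr_pr_ne (i : ℕ) : pr i % 3 ≠ nr i % 3 := by unfold nr pr; omega

theorem idxP (i : ℕ) : 3 * (aP i / 8) + (aP i % 8) / 2 - 1 = i := by unfold aP; omega
theorem idxQ (i : ℕ) : 3 * (aQ i / 8) + (aQ i % 8) / 2 - 1 = i := by unfold aQ; omega

def vS (a c : Bool) : ℕ :=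
  if a = true then (if c = true then 6 else 5) else (if c = true then 3 else 2)
def wS (b c : Bool) : ℕ :=
  if b = true then (if c = true then 2 else 3) else (if c = true then 5 else 6)

section values

variable (ψ : CNF) (T : ℕ → Bool)

theorem scVW (c : ℕ) : sc ψ T (aV c) (aW c) = 4 := by
  have h1 : aV c % 8 = 0 := by unfold aV; omega
  have h2 : aW c = aV c + 1 := by unfold aV aW; omega
  unfold sc
  rw [if_pos h1, if_pos h2]

theorem scVP (i : ℕ) : sc ψ T (aV (i / 3)) (aP i) = vS (T i) (T (pr i)) := by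
  have h1 : aV (i / 3) % 8 = 0 := by unfold aV; omega
  have h2 : ¬ aP i = aV (i / 3) + 1 := by unfold aP aV; omega
  have h3 : aP i / 8 = aV (i / 3) / 8 ∧ aP i % 8 ≠ 0 ∧ aP i % 2 = 0 := by
    unfold aP aV; omega
  unfold sc vS
  rw [if_pos h1, if_neg h2, if_pos h3, idxP]

theorem scWV (c : ℕ) : sc ψ T (aW c) (aV c) = 4 := by
  have h0 : ¬ aW c % 8 = 0 := by unfold aW; omega
  have h1 : aW c % 8 = 1 := by unfold aW; omega
  have h2 : aV c + 1 = aW c := by unfold aV aW; omega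
  unfold sc
  rw [if_neg h0, if_pos h1, if_pos h2]

theorem scWQ (i : ℕ) : sc ψ T (aW (i / 3)) (aQ i) = wS (T (nr i)) (T (pr i)) := by
  have h0 : ¬ aW (i / 3) % 8 = 0 := by unfold aW; omega
  have h1 : aW (i / 3) % 8 = 1 := by unfold aW; omega
  have h2 : ¬ aQ i + 1 = aW (i / 3) := by unfold aQ aW; omega
  have h3 : aQ i / 8 = aW (i / 3) / 8 ∧ aQ i % 8 ≠ 1 ∧ aQ i % 2 = 1 := by
    unfold aQ aW; omega
  unfold sc wS
  rw [if_neg h0, if_pos h1, if_neg h2, if_pos h3, idxQ]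

theorem P0 (i : ℕ) : ¬ aP i % 8 = 0 := by unfold aP; omega
theorem P1 (i : ℕ) : ¬ aP i % 8 = 1 := by unfold aP; omega
theorem P2 (i : ℕ) : aP i % 2 = 0 := by unfold aP; omega
theorem Q0 (i : ℕ) : ¬ aQ i % 8 = 0 := by unfold aQ; omega
theorem Q1 (i : ℕ) : ¬ aQ i % 8 = 1 := by unfold aQ; omega
theorem Q2 (i : ℕ) : ¬ aQ i % 2 = 0 := by unfold aQ; omega
theorem P8 (i : ℕ) : aP i / 8 = i / 3 := by unfold aP; omega
theorem Q8 (i : ℕ) : aQ i / 8 = i / 3 := by unfold aQ; omega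

theorem scPQ (i : ℕ) : sc ψ T (aP i) (aQ i) = 4 := by
  have h2 : aQ i = aP i + 1 := by unfold aP aQ; omega
  unfold sc
  rw [if_neg (P0 i), if_neg (P1 i), if_pos (P2 i), if_pos h2]

theorem scPV (i : ℕ) : sc ψ T (aP i) (aV (i / 3)) = if T i = true then 3 else 5 := by
  have h2 : ¬ aV (i / 3) = aP i + 1 := by unfold aP aV; omega
  have h3 : aV (i / 3) = aV (aP i / 8) := by rw [P8]
  unfold sc
  rw [if_neg (P0 i), if_neg (P1 i), if_pos (P2 i), if_neg h2, if_pos h3, idxP]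

theorem scQP (i : ℕ) : sc ψ T (aQ i) (aP i) = 4 := by
  have h2 : aP i + 1 = aQ i := by unfold aP aQ; omega
  unfold sc
  rw [if_neg (Q0 i), if_neg (Q1 i), if_neg (Q2 i), if_pos h2]

end values

/-- A terminal of `l`. -/
def Ter (l a : ℕ) : Prop := a = aQ l ∨ a = aP (pr l)

theorem ter_ot (ψ : CNF) (l : ℕ) : Ter l (ot ψ l) := by
  unfold Ter ot; split_ifs <;> simp

theorem ter_inn (ψ : CNF) (l : ℕ) : Ter l (inn ψ l) := by
  unfold Ter inn; split_ifs <;> simp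

section main

variable {ψ : CNF} {τ : ℕ → Bool} {T : ℕ → Bool}

theorem mod_nxt (h2 : S_OCC) (hc : Col ψ) {i : ℕ} (hi : i < NO ψ) :
    nxt ψ i < NO ψ ∧ nxt ψ i % 3 = i % 3 := by
  obtain ⟨h, -⟩ := h2 ψ
  obtain ⟨a, b, c, d, e, f⟩ := h i hi
  refine ⟨a, ?_⟩
  rw [← hc _ a, ← hc _ hi, c]

theorem mod_prv (h2 : S_OCC) (hc : Col ψ) {i : ℕ} (hi : i < NO ψ) :
    prv ψ i < NO ψ ∧ prv ψ i % 3 = i % 3 := by
  obtain ⟨h, -⟩ := h2 ψ
  obtain ⟨a, b, c, d, e, f⟩ := h i hi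
  refine ⟨b, ?_⟩
  rw [← hc _ b, ← hc _ hi, d]

theorem nr_lt (h1 : S_BAS) {i : ℕ} (hi : i < NO ψ) : nr i < NO ψ := by
  obtain ⟨h, -⟩ := h1 ψ
  rw [h] at hi ⊢; unfold nr; omega

theorem pr_lt (h1 : S_BAS) {i : ℕ} (hi : i < NO ψ) : pr i < NO ψ := by
  obtain ⟨h, -⟩ := h1 ψ
  rw [h] at hi ⊢; unfold pr; omega

theorem cnP_ter (h1 : S_BAS) (h2 : S_OCC) (hc : Col ψ) {i : ℕ} (hi : i < NO ψ) :
    ∃ l, l % 3 = nr i % 3 ∧ Ter l (cnP ψ i) := by
  have hn := nr_lt h1 hi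
  unfold cnP
  split_ifs
  · exact ⟨_, (mod_prv h2 hc hn).2, ter_ot ψ _⟩
  · exact ⟨_, (mod_nxt h2 hc hn).2, ter_inn ψ _⟩

theorem cnQ_ter (h2 : S_OCC) (hc : Col ψ) {i : ℕ} (hi : i < NO ψ) :
    ∃ l, l % 3 = i % 3 ∧ Ter l (cnQ ψ i) := by
  unfold cnQ
  split_ifs
  · exact ⟨_, (mod_nxt h2 hc hi).2, ter_inn ψ _⟩
  · exact ⟨_, (mod_prv h2 hc hi).2, ter_ot ψ _⟩

theorem scPC (T : ℕ → Bool) (h1 : S_BAS) (h2 : S_OCC) (hc : Col ψ) {i : ℕ} (hi : i < NO ψ) :
    sc ψ T (aP i) (cnP ψ i) = if T (nr i) = true then 2 else 6 := by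
  obtain ⟨l, hl, ht⟩ := cnP_ter h1 h2 hc hi
  have h3 : ¬ cnP ψ i = aP i + 1 := by
    intro h
    rcases ht with h' | h' <;> rw [h] at h'
    · unfold aP aQ at h'; unfold nr at hl; omega
    · unfold aP pr at h'; omega
  have h4 : ¬ cnP ψ i = aV (aP i / 8) := by
    intro h
    rcases ht with h' | h' <;> rw [h] at h'
    · unfold aV aQ at h'; omega
    · unfold aV aP at h'; omega
  unfold sc
  rw [if_neg (P0 i), if_neg (P1 i), if_pos (P2 i), if_neg h3, if_neg h4, idxP, if_pos rfl]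

theorem scQC (T : ℕ → Bool) (h2 : S_OCC) (hc : Col ψ) {i : ℕ} (hi : i < NO ψ) :
    sc ψ T (aQ i) (cnQ ψ i) = if T i = true then 6 else 2 := by
  obtain ⟨l, hl, ht⟩ := cnQ_ter h2 hc hi
  have h3 : ¬ cnQ ψ i + 1 = aQ i := by
    intro h
    rcases ht with h' | h' <;> rw [h'] at h
    · unfold aQ at h; omega
    · unfold aP aQ pr at h; omega
  unfold sc
  rw [if_neg (Q0 i), if_neg (Q1 i), if_neg (Q2 i), if_neg h3, idxQ, if_pos rfl]

theorem scQW (T : ℕ → Bool) (h2 : S_OCC) (hc : Col ψ) {i : ℕ} (hi : i < NO ψ) :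
    sc ψ T (aQ i) (aW (i / 3)) = if T (nr i) = true then 5 else 3 := by
  obtain ⟨l, hl, ht⟩ := cnQ_ter h2 hc hi
  have h3 : ¬ aW (i / 3) + 1 = aQ i := by unfold aW aQ; omega
  have h4 : ¬ aW (i / 3) = cnQ ψ i := by
    intro h
    rcases ht with h' | h' <;> rw [h'] at h
    · unfold aW aQ at h; omega
    · unfold aW aP at h; omega
  have h5 : aW (i / 3) = aW (aQ i / 8) := by rw [Q8]
  unfold sc
  rw [if_neg (Q0 i), if_neg (Q1 i), if_neg (Q2 i), if_neg h3, idxQ, if_neg h4, if_pos h5]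

/-! ### Scores of the partners -/

theorem pV (T : ℕ → Bool) (h3 : S4_EV) {i : ℕ} (hi : i < NO ψ) :
    sc ψ T (aV (i / 3)) (mt4 ψ (some (i % 3)) (aV (i / 3))) = vS (T i) (T (pr i)) := by
  rw [((h3 ψ).1 i hi).1, scVP]

theorem pW (T : ℕ → Bool) (h3 : S4_EV) {i : ℕ} (hi : i < NO ψ) :
    sc ψ T (aW (i / 3)) (mt4 ψ (some (i % 3)) (aW (i / 3))) = wS (T i) (T (nr i)) := by
  rw [((h3 ψ).1 i hi).2]
  have := scWQ ψ T (pr i)
  rwa [pr_div, nr_pr, pr_pr] at this

theorem pV0 (T : ℕ → Bool) (h3 : S4_EV) {c : ℕ} (hc : c < ψ.length) {o : Option ℕ}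
    (ho : ∀ k < 3, o ≠ some k) : sc ψ T (aV c) (mt4 ψ o (aV c)) = 4 := by
  rw [((h3 ψ).2.1 c hc o ho).1, scVW]

theorem pW0 (T : ℕ → Bool) (h3 : S4_EV) {c : ℕ} (hc : c < ψ.length) {o : Option ℕ}
    (ho : ∀ k < 3, o ≠ some k) : sc ψ T (aW c) (mt4 ψ o (aW c)) = 4 := by
  rw [((h3 ψ).2.1 c hc o ho).2, scWV]

theorem pP (T : ℕ → Bool) (h1 : S_BAS) (h2 : S_OCC) (h3 : S4_EV) (hc : Col ψ) {i : ℕ}
    (hi : i < NO ψ) (o : Option ℕ) :
    sc ψ T (aP i) (mt4 ψ o (aP i)) = if o = some (i % 3) then (if T i = true then 3 else 5)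
      else if o = some (nr i % 3) then (if T (nr i) = true then 2 else 6) else 4 := by
  rw [((h3 ψ).2.2 i hi o).1]
  split_ifs with a b <;> simp_all [scPV, scPC T h1 h2 hc hi, scPQ]

theorem pQ (T : ℕ → Bool) (h2 : S_OCC) (h3 : S4_EV) (hc : Col ψ) {i : ℕ}
    (hi : i < NO ψ) (o : Option ℕ) :
    sc ψ T (aQ i) (mt4 ψ o (aQ i)) = if o = some (i % 3) then (if T i = true then 6 else 2)
      else if o = some (nr i % 3) then (if T (nr i) = true then 5 else 3) else 4 := by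
  rw [((h3 ψ).2.2 i hi o).2]
  split_ifs with a b <;> simp_all [scQW T h2 hc hi, scQC T h2 hc hi, scQP]

/-! ### The edges inside a clause -/

theorem ocases (o : Option ℕ) (i : ℕ) : o = some (i % 3) ∨ o = some (nr i % 3) ∨
    o = some (pr i % 3) ∨ ∀ k < 3, o ≠ some k := by
  by_cases h : ∀ k < 3, o ≠ some k
  · exact Or.inr (Or.inr (Or.inr h))
  · push Not at h
    obtain ⟨k, hk, rfl⟩ := h
    have : k = i % 3 ∨ k = nr i % 3 ∨ k = pr i % 3 := by unfold nr pr; omega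
    rcases this with h | h | h <;> simp [h]

/-- Some end of the pair prefers its partner. -/
def Good (ψ : CNF) (T : ℕ → Bool) (o : Option ℕ) (a b : ℕ) : Prop :=
  sc ψ T a b < sc ψ T a (mt4 ψ o a) ∨ sc ψ T b a < sc ψ T b (mt4 ψ o b)

theorem Good.symm {o : Option ℕ} {a b : ℕ} (h : Good ψ T o a b) : Good ψ T o b a := Or.symm h

variable (hne : ∀ c < ψ.length, ¬ (T (3 * c) = T (3 * c + 1) ∧ T (3 * c + 1) = T (3 * c + 2)))

include hne in
theorem ne3 (h1 : S_BAS) {i : ℕ} (hi : i < NO ψ) : ¬ (T i = T (nr i) ∧ T (nr i) = T (pr i)) := by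
  rw [(h1 ψ).1] at hi
  have hc := hne (i / 3) (by omega)
  obtain h | h | h : i % 3 = 0 ∨ i % 3 = 1 ∨ i % 3 = 2 := by omega
  · have e1 : i = 3 * (i / 3) := by omega
    have e2 : nr i = 3 * (i / 3) + 1 := by unfold nr; omega
    have e3 : pr i = 3 * (i / 3) + 2 := by unfold pr; omega
    rw [e2, e3]; rw [← e1] at hc ⊢; exact hc
  · have e1 : i = 3 * (i / 3) + 1 := by omega
    have e2 : nr i = 3 * (i / 3) + 2 := by unfold nr; omega
    have e3 : pr i = 3 * (i / 3) := by unfold pr; omega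
    rw [e2, e3]; rw [← e1] at hc
    rintro ⟨u, v⟩
    exact hc ⟨by rw [u, v], u⟩
  · have e1 : i = 3 * (i / 3) + 2 := by omega
    have e2 : nr i = 3 * (i / 3) := by unfold nr; omega
    have e3 : pr i = 3 * (i / 3) + 1 := by unfold pr; omega
    rw [e2, e3]; rw [← e1] at hc
    rintro ⟨u, v⟩
    exact hc ⟨v, by rw [← v, u]⟩

theorem edge1 (T : ℕ → Bool) (h3 : S4_EV) {i : ℕ} (hi : i < NO ψ) :
    Good ψ T (some (i % 3)) (aV (i / 3)) (aW (i / 3)) := by
  unfold Good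
  rw [pV T h3 hi, pW T h3 hi, scVW, scWV]
  generalize T i = a; generalize T (nr i) = b; generalize T (pr i) = c
  revert a b c; decide

include hne in
theorem edge2 (h1 : S_BAS) (h2 : S_OCC) (h3 : S4_EV) (hc : Col ψ) {i : ℕ} (hi : i < NO ψ)
    {o : Option ℕ} (ho : o ≠ some (i % 3)) : Good ψ T o (aV (i / 3)) (aP i) := by
  have hN := (h1 ψ).1
  have hne' := ne3 hne h1 hi
  unfold Good
  rw [pP T h1 h2 h3 hc hi, scVP, scPV]
  rcases ocases o i with rfl | rfl | rfl | h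
  · exact absurd rfl ho
  · have := pV T h3 (nr_lt h1 hi)
    rw [nr_div, pr_nr] at this
    rw [this]
    have e1 : ¬ some (nr i % 3) = some (i % 3) := by simpa using nr_ne i
    rw [if_neg e1, if_pos rfl]
    revert hne'
    generalize T i = a; generalize T (nr i) = b; generalize T (pr i) = c
    revert a b c; decide
  · have := pV T h3 (pr_lt h1 hi)
    rw [pr_div, pr_pr] at this
    rw [this]
    have e1 : ¬ some (pr i % 3) = some (i % 3) := by simpa using pr_ne i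
    have e2 : ¬ some (pr i % 3) = some (nr i % 3) := by simpa using nr_pr_ne i
    rw [if_neg e1, if_neg e2]
    revert hne'
    generalize T i = a; generalize T (nr i) = b; generalize T (pr i) = c
    revert a b c; decide
  · rw [pV0 T h3 (by omega) h, if_neg ho, if_neg (h _ (by omega))]
    revert hne'
    generalize T i = a; generalize T (nr i) = b; generalize T (pr i) = c
    revert a b c; decide

include hne in
theorem edge3 (h1 : S_BAS) (h2 : S_OCC) (h3 : S4_EV) (hc : Col ψ) {i : ℕ} (hi : i < NO ψ)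
    {o : Option ℕ} (ho : o ≠ some (nr i % 3)) : Good ψ T o (aW (i / 3)) (aQ i) := by
  have hN := (h1 ψ).1
  have hne' := ne3 hne h1 hi
  unfold Good
  rw [pQ T h2 h3 hc hi, scWQ, scQW T h2 hc hi]
  rcases ocases o i with rfl | rfl | rfl | h
  · rw [pW T h3 hi, if_pos rfl]
    revert hne'
    generalize T i = a; generalize T (nr i) = b; generalize T (pr i) = c
    revert a b c; decide
  · exact absurd rfl ho
  · have := pW T h3 (pr_lt h1 hi)
    rw [pr_div, nr_pr] at this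
    rw [this]
    have e1 : ¬ some (pr i % 3) = some (i % 3) := by simpa using pr_ne i
    have e2 : ¬ some (pr i % 3) = some (nr i % 3) := by simpa using nr_pr_ne i
    rw [if_neg e1, if_neg e2]
    revert hne'
    generalize T i = a; generalize T (nr i) = b; generalize T (pr i) = c
    revert a b c; decide
  · rw [pW0 T h3 (by omega) h, if_neg ho, if_neg (h _ (by omega))]
    revert hne'
    generalize T i = a; generalize T (nr i) = b; generalize T (pr i) = c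
    revert a b c; decide

theorem edge4 (T : ℕ → Bool) (h1 : S_BAS) (h2 : S_OCC) (h3 : S4_EV) (hc : Col ψ) {i : ℕ}
    (hi : i < NO ψ) {o : Option ℕ} (ho : o = some (i % 3) ∨ o = some (nr i % 3)) :
    Good ψ T o (aP i) (aQ i) := by
  unfold Good
  rw [pP T h1 h2 h3 hc hi, pQ T h2 h3 hc hi, scPQ, scQP]
  rcases ho with rfl | rfl
  · rw [if_pos rfl, if_pos rfl]
    generalize T i = a
    revert a; decide
  · have e1 : ¬ some (nr i % 3) = some (i % 3) := by simpa using nr_ne i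
    rw [if_neg e1, if_neg e1, if_pos rfl, if_pos rfl]
    generalize T (nr i) = a
    revert a; decide

/-! ### The connections -/

theorem cn_ot (ψ : CNF) {l : ℕ} : (ot ψ l = aQ l ∧ inn ψ (nxt ψ l) = cnQ ψ l) ∨
    (ot ψ l = aP (pr l) ∧ inn ψ (nxt ψ l) = cnP ψ (pr l)) := by
  unfold ot cnQ cnP
  rw [nr_pr]
  by_cases h : (lit ψ l).1 = true
  · left; simp [h]
  · right; simp [h]

theorem cn_inn (ψ : CNF) {l : ℕ} : (inn ψ l = aQ l ∧ ot ψ (prv ψ l) = cnQ ψ l) ∨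
    (inn ψ l = aP (pr l) ∧ ot ψ (prv ψ l) = cnP ψ (pr l)) := by
  unfold inn cnQ cnP
  rw [nr_pr]
  by_cases h : (lit ψ l).1 = true
  · right; simp [h]
  · left; simp [h]

theorem sc_ot (h1 : S_BAS) (h2 : S_OCC) (hc : Col ψ)
    (hT : ∀ i, T i = decide (τ (vv ψ i) = (lit ψ i).1)) {l : ℕ} (hl : l < NO ψ) :
    sc ψ T (ot ψ l) (inn ψ (nxt ψ l)) = if τ (vv ψ l) = true then 6 else 2 := by
  have hp := scPC T h1 h2 hc (pr_lt h1 hl)
  have hq := scQC T h2 hc hl
  have hTl := hT l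
  rw [nr_pr] at hp
  by_cases h : (lit ψ l).1 = true
  · have e1 : ot ψ l = aQ l := by simp [ot, h]
    have e2 : inn ψ (nxt ψ l) = cnQ ψ l := by simp [cnQ, h]
    rw [e1, e2, hq, hTl, h]; simp
  · have e1 : ot ψ l = aP (pr l) := by simp [ot, h]
    have e2 : inn ψ (nxt ψ l) = cnP ψ (pr l) := by simp [cnP, nr_pr, h]
    rw [e1, e2, hp, hTl]
    have h' : (lit ψ l).1 = false := by simpa using h
    rw [h']
    cases τ (vv ψ l) <;> simp

theorem sc_inn (h1 : S_BAS) (h2 : S_OCC) (hc : Col ψ)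
    (hT : ∀ i, T i = decide (τ (vv ψ i) = (lit ψ i).1)) {l : ℕ} (hl : l < NO ψ) :
    sc ψ T (inn ψ l) (ot ψ (prv ψ l)) = if τ (vv ψ l) = true then 2 else 6 := by
  have hp := scPC T h1 h2 hc (pr_lt h1 hl)
  have hq := scQC T h2 hc hl
  have hTl := hT l
  rw [nr_pr] at hp
  by_cases h : (lit ψ l).1 = true
  · have e1 : inn ψ l = aP (pr l) := by simp [inn, h]
    have e2 : ot ψ (prv ψ l) = cnP ψ (pr l) := by simp [cnP, nr_pr, h]
    rw [e1, e2, hp, hTl, h]; simp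
  · have e1 : inn ψ l = aQ l := by simp [inn, h]
    have e2 : ot ψ (prv ψ l) = cnQ ψ l := by simp [cnQ, h]
    rw [e1, e2, hq, hTl]
    have h' : (lit ψ l).1 = false := by simpa using h
    rw [h']
    cases τ (vv ψ l) <;> simp

theorem ter_three (T : ℕ → Bool) (h1 : S_BAS) (h2 : S_OCC) (h3 : S4_EV) (hc : Col ψ) {l : ℕ}
    (hl : l < NO ψ) {o : Option ℕ} (ho : o ≠ some (l % 3)) {a : ℕ} (ha : Ter l a) :
    3 ≤ sc ψ T a (mt4 ψ o a) := by
  rcases ha with rfl | rfl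
  · rw [pQ T h2 h3 hc hl, if_neg ho]
    split_ifs <;> omega
  · rw [pP T h1 h2 h3 hc (pr_lt h1 hl), nr_pr, if_neg ho]
    split_ifs <;> omega

theorem edge5 (h1 : S_BAS) (h2 : S_OCC) (h3 : S4_EV) (hc : Col ψ)
    (hT : ∀ i, T i = decide (τ (vv ψ i) = (lit ψ i).1)) {l : ℕ} (hl : l < NO ψ)
    {o : Option ℕ} (ho : o ≠ some (l % 3)) : Good ψ T o (ot ψ l) (inn ψ (nxt ψ l)) := by
  obtain ⟨h, -⟩ := h2 ψ
  obtain ⟨a, b, c, d, e, f⟩ := h l hl
  have hm := mod_nxt h2 hc hl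
  unfold Good
  by_cases ht : τ (vv ψ l) = true
  · right
    have := sc_inn h1 h2 hc hT hm.1
    rw [e, c, if_pos ht] at this
    rw [this]
    have := ter_three T h1 h2 h3 hc hm.1 (o := o) (by rw [hm.2]; exact ho) (ter_inn ψ _)
    omega
  · left
    rw [sc_ot h1 h2 hc hT hl, if_neg ht]
    have := ter_three T h1 h2 h3 hc hl ho (ter_ot ψ _)
    omega

theorem edge5' (h1 : S_BAS) (h2 : S_OCC) (h3 : S4_EV) (hc : Col ψ)
    (hT : ∀ i, T i = decide (τ (vv ψ i) = (lit ψ i).1)) {l : ℕ} (hl : l < NO ψ)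
    {o : Option ℕ} (ho : o ≠ some (l % 3)) : Good ψ T o (inn ψ l) (ot ψ (prv ψ l)) := by
  obtain ⟨h, -⟩ := h2 ψ
  obtain ⟨a, b, c, d, e, f⟩ := h l hl
  have hm := mod_prv h2 hc hl
  have := edge5 h1 h2 h3 hc hT hm.1 (o := o) (by rw [hm.2]; exact ho)
  rw [f] at this
  exact this.symm

theorem edgeP (h1 : S_BAS) (h2 : S_OCC) (h3 : S4_EV) (hc : Col ψ)
    (hT : ∀ i, T i = decide (τ (vv ψ i) = (lit ψ i).1)) {i : ℕ} (hi : i < NO ψ)
    {o : Option ℕ} (ho : o ≠ some (nr i % 3)) : Good ψ T o (aP i) (cnP ψ i) := by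
  have hn := nr_lt h1 hi
  by_cases h : (lit ψ (nr i)).1 = true
  · have := edge5' h1 h2 h3 hc hT hn ho
    have e1 : inn ψ (nr i) = aP i := by simp [inn, h, pr_nr]
    have e2 : ot ψ (prv ψ (nr i)) = cnP ψ i := by simp [cnP, h]
    rwa [e1, e2] at this
  · have := edge5 h1 h2 h3 hc hT hn ho
    have e1 : ot ψ (nr i) = aP i := by simp [ot, h, pr_nr]
    have e2 : inn ψ (nxt ψ (nr i)) = cnP ψ i := by simp [cnP, h]
    rwa [e1, e2] at this

theorem edgeQ (h1 : S_BAS) (h2 : S_OCC) (h3 : S4_EV) (hc : Col ψ)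
    (hT : ∀ i, T i = decide (τ (vv ψ i) = (lit ψ i).1)) {i : ℕ} (hi : i < NO ψ)
    {o : Option ℕ} (ho : o ≠ some (i % 3)) : Good ψ T o (aQ i) (cnQ ψ i) := by
  by_cases h : (lit ψ i).1 = true
  · have := edge5 h1 h2 h3 hc hT hi ho
    have e1 : ot ψ i = aQ i := by simp [ot, h]
    have e2 : inn ψ (nxt ψ i) = cnQ ψ i := by simp [cnQ, h]
    rwa [e1, e2] at this
  · have := edge5' h1 h2 h3 hc hT hi ho
    have e1 : inn ψ i = aQ i := by simp [inn, h]
    have e2 : ot ψ (prv ψ i) = cnQ ψ i := by simp [cnQ, h]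
    rwa [e1, e2] at this

/-! ### Other pairs -/

theorem pos (T : ℕ → Bool) (h1 : S_BAS) (h2 : S_OCC) (h3 : S4_EV) (h4 : S_KIND) (hc : Col ψ)
    (o : Option ℕ) {a : ℕ} (ha : a < 8 * ψ.length) : 0 < sc ψ T a (mt4 ψ o a) := by
  have hN := (h1 ψ).1
  have hv : ∀ a c : Bool, 0 < vS a c := by decide
  have hw : ∀ a c : Bool, 0 < wS a c := by decide
  rcases h4 ψ.length a ha with ⟨c, hc', rfl⟩ | ⟨c, hc', rfl⟩ | ⟨i, hi, rfl⟩ | ⟨i, hi, rfl⟩
  · by_cases h : ∀ k < 3, o ≠ some k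
    · rw [pV0 T h3 hc' h]; omega
    · push Not at h
      obtain ⟨k, hk, rfl⟩ := h
      have := pV T h3 (ψ := ψ) (i := 3 * c + k) (by omega)
      rw [show (3 * c + k) / 3 = c by omega, show (3 * c + k) % 3 = k by omega] at this
      rw [this]; exact hv _ _
  · by_cases h : ∀ k < 3, o ≠ some k
    · rw [pW0 T h3 hc' h]; omega
    · push Not at h
      obtain ⟨k, hk, rfl⟩ := h
      have := pW T h3 (ψ := ψ) (i := 3 * c + k) (by omega)
      rw [show (3 * c + k) / 3 = c by omega, show (3 * c + k) % 3 = k by omega] at this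
      rw [this]; exact hw _ _
  · rw [pP T h1 h2 h3 hc (by omega)]; split_ifs <;> omega
  · rw [pQ T h2 h3 hc (by omega)]; split_ifs <;> omega

theorem nzV {c b : ℕ} (h : sc ψ T (aV c) b ≠ 0) : b = aW c ∨ ∃ i, i / 3 = c ∧ b = aP i := by
  have h1 : aV c % 8 = 0 := by unfold aV; omega
  unfold sc at h
  rw [if_pos h1] at h
  by_cases h2 : b = aV c + 1
  · left; rw [h2]; unfold aV aW; omega
  · rw [if_neg h2] at h
    by_cases h3 : b / 8 = aV c / 8 ∧ b % 8 ≠ 0 ∧ b % 2 = 0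
    · right
      refine ⟨3 * (b / 8) + (b % 8) / 2 - 1, ?_, ?_⟩
      · unfold aV at h3; omega
      · unfold aP; omega
    · rw [if_neg h3] at h; exact absurd rfl h

theorem nzW {c b : ℕ} (h : sc ψ T (aW c) b ≠ 0) : b = aV c ∨ ∃ i, i / 3 = c ∧ b = aQ i := by
  have h0 : ¬ aW c % 8 = 0 := by unfold aW; omega
  have h1 : aW c % 8 = 1 := by unfold aW; omega
  unfold sc at h
  rw [if_neg h0, if_pos h1] at h
  by_cases h2 : b + 1 = aW c
  · left; unfold aW at h2; unfold aV; omega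
  · rw [if_neg h2] at h
    by_cases h3 : b / 8 = aW c / 8 ∧ b % 8 ≠ 1 ∧ b % 2 = 1
    · right
      refine ⟨3 * (b / 8) + (b % 8) / 2 - 1, ?_, ?_⟩
      · unfold aW at h3; omega
      · unfold aQ; omega
    · rw [if_neg h3] at h; exact absurd rfl h

theorem nzP {i b : ℕ} (h : sc ψ T (aP i) b ≠ 0) : b = aQ i ∨ b = aV (i / 3) ∨ b = cnP ψ i := by
  unfold sc at h
  rw [if_neg (P0 i), if_neg (P1 i), if_pos (P2 i)] at h
  by_cases h2 : b = aP i + 1
  · left; rw [h2]; unfold aP aQ; omega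
  · rw [if_neg h2] at h
    by_cases h3 : b = aV (aP i / 8)
    · right; left; rw [h3, P8]
    · rw [if_neg h3, idxP] at h
      by_cases h4 : b = cnP ψ i
      · right; right; exact h4
      · rw [if_neg h4] at h; exact absurd rfl h

theorem nzQ {i b : ℕ} (h : sc ψ T (aQ i) b ≠ 0) : b = aP i ∨ b = cnQ ψ i ∨ b = aW (i / 3) := by
  unfold sc at h
  rw [if_neg (Q0 i), if_neg (Q1 i), if_neg (Q2 i)] at h
  by_cases h2 : b + 1 = aQ i
  · left; unfold aQ at h2; unfold aP; omega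
  · rw [if_neg h2, idxQ] at h
    by_cases h3 : b = cnQ ψ i
    · right; left; exact h3
    · rw [if_neg h3] at h
      by_cases h4 : b = aW (aQ i / 8)
      · right; right; rw [h4, Q8]
      · rw [if_neg h4] at h; exact absurd rfl h

end main

theorem sc4 (h1 : S_BAS) (h2 : S_OCC) (h3 : S4_EV) (h4 : S_KIND) (h5 : S4_INV) : S4_SC := by
  intro ψ τ T hc hT hne o a ha b hb hab hm
  change Good ψ T o a b
  have hN := (h1 ψ).1
  by_cases hz : sc ψ T a b = 0
  · left; rw [hz]; exact pos T h1 h2 h3 h4 hc o ha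
  have hinv := h5 ψ hc o
  rcases h4 ψ.length a ha with ⟨c, hc', rfl⟩ | ⟨c, hc', rfl⟩ | ⟨i, hi, rfl⟩ | ⟨i, hi, rfl⟩
  · rcases nzV hz with rfl | ⟨i, rfl, rfl⟩
    · by_cases h : ∀ k < 3, o ≠ some k
      · exact absurd ((h3 ψ).2.1 c hc' o h).1.symm hm
      · push Not at h
        obtain ⟨k, hk, rfl⟩ := h
        have := edge1 T h3 (i := 3 * c + k) (ψ := ψ) (by omega)
        rwa [show (3 * c + k) / 3 = c by omega, show (3 * c + k) % 3 = k by omega] at this
    · refine edge2 hne h1 h2 h3 hc (by omega) ?_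
      rintro rfl
      exact hm ((h3 ψ).1 i (by omega)).1.symm
  · rcases nzW hz with rfl | ⟨i, rfl, rfl⟩
    · by_cases h : ∀ k < 3, o ≠ some k
      · exact absurd ((h3 ψ).2.1 c hc' o h).2.symm hm
      · push Not at h
        obtain ⟨k, hk, rfl⟩ := h
        have := edge1 T h3 (i := 3 * c + k) (ψ := ψ) (by omega)
        rw [show (3 * c + k) / 3 = c by omega, show (3 * c + k) % 3 = k by omega] at this
        exact this.symm
    · refine edge3 hne h1 h2 h3 hc (by omega) ?_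
      rintro rfl
      apply hm
      have := ((h3 ψ).1 (nr i) (nr_lt h1 (by omega))).2
      rw [nr_div, pr_nr] at this
      exact this.symm
  · rcases nzP hz with rfl | rfl | rfl
    · refine edge4 T h1 h2 h3 hc (by omega) ?_
      by_contra hcon
      push Not at hcon
      apply hm
      rw [((h3 ψ).2.2 i (by omega) o).1, if_neg hcon.1, if_neg hcon.2]
    · refine (edge2 hne h1 h2 h3 hc (by omega) ?_).symm
      rintro rfl
      apply hm
      rw [((h3 ψ).2.2 i (by omega) _).1, if_pos rfl]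
    · refine edgeP h1 h2 h3 hc hT (by omega) ?_
      rintro rfl
      apply hm
      have e1 : ¬ some (nr i % 3) = some (i % 3) := by simpa using nr_ne i
      rw [((h3 ψ).2.2 i (by omega) _).1, if_neg e1, if_pos rfl]
  · rcases nzQ hz with rfl | rfl | rfl
    · refine (edge4 T h1 h2 h3 hc (by omega) ?_).symm
      by_contra hcon
      push Not at hcon
      apply hm
      rw [((h3 ψ).2.2 i (by omega) o).2, if_neg hcon.1, if_neg hcon.2]
    · refine edgeQ h1 h2 h3 hc hT (by omega) ?_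
      rintro rfl
      apply hm
      rw [((h3 ψ).2.2 i (by omega) _).2, if_pos rfl]
    · refine (edge3 hne h1 h2 h3 hc (by omega) ?_).symm
      rintro rfl
      apply hm
      have e1 : ¬ some (nr i % 3) = some (i % 3) := by simpa using nr_ne i
      rw [((h3 ψ).2.2 i (by omega) _).2, if_neg e1, if_pos rfl]

end Pool.Agent.W886.SRR
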